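import Pool.Agent.helper5.IH.Spec

set_option autoImplicit false

namespace Pool.Agent.IH
open Finset CT SYM

private theorem DEC_inv {X : Type} [Finite X] (h : Even (Nat.card X)) :
    ∃ σ : X → X, (∀ x, σ (σ x) = x) ∧ ∀ x, σ x ≠ x := by
  obtain ⟨k, hk⟩ := h
  have h1 : Nat.card X = Nat.card (Fin k × Bool) := by
    rw [hk, Nat.card_prod, Nat.card_fin, Nat.card_eq_fintype_card, Fintype.card_bool]
    ring
  obtain ⟨e⟩ := Finite.card_eq.1 h1
  refine ⟨fun x => e.symm ((e x).1, !(e x).2), fun x => ?_, fun x hx => ?_⟩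
  · simp
  · have h2 := congrArg e hx
    rw [Equiv.apply_symm_apply] at h2
    have h3 := congrArg Prod.snd h2
    simp at h3

private theorem DEC_fib {D B : Type} [Finite D] (f : D → B)
    (h : ∀ p : B, Even (Nat.card {d : D // f d = p})) :
    ∃ τ : D → D, (∀ d, τ (τ d) = d) ∧ (∀ d, τ d ≠ d) ∧ ∀ d, f (τ d) = f d := by
  choose σ h1 h2 using fun p => DEC_inv (h p)
  let s := Equiv.sigmaFiberEquiv f
  let m : (Σ p : B, {d : D // f d = p}) → (Σ p : B, {d : D // f d = p}) := fun x => ⟨x.1, σ x.1 x.2⟩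
  have hm1 : ∀ x, m (m x) = x := by
    rintro ⟨p, y⟩
    change (⟨p, σ p (σ p y)⟩ : Σ p : B, {d : D // f d = p}) = ⟨p, y⟩
    rw [h1]
  have hm2 : ∀ x, m x ≠ x := by
    rintro ⟨p, y⟩ h3
    change (⟨p, σ p y⟩ : Σ p : B, {d : D // f d = p}) = ⟨p, y⟩ at h3
    simp only [Sigma.mk.injEq, heq_eq_eq, true_and] at h3
    exact h2 p y h3
  have hs : ∀ x, f (s x) = x.1 := fun x => x.2.2
  refine ⟨fun d => s (m (s.symm d)), fun d => ?_, fun d hd => ?_, fun d => ?_⟩
  · change s (m (s.symm (s (m (s.symm d))))) = d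
    rw [s.symm_apply_apply, hm1, s.apply_symm_apply]
  · have h3 : m (s.symm d) = s.symm d := by
      apply s.injective
      rw [s.apply_symm_apply]
      exact hd
    exact hm2 _ h3
  · change f (s (m (s.symm d))) = f d
    rw [hs]
    change (s.symm d).1 = f d
    rw [← hs, s.apply_symm_apply]

theorem DEC : DEC_stmt := by
  intro V _ _ G b c _ hE
  have : Finite G.Dart := Finite.of_injective (fun d : G.Dart => d.toProd) (fun d d' h => SimpleGraph.Dart.ext _ _ h)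
  have hfib : ∀ p : V × Fin b, Even (Nat.card {d : G.Dart // (d.fst, c s(d.fst, d.snd)) = p}) := by
    rintro ⟨v, i⟩
    have h1 : Nat.card {d : G.Dart // (d.fst, c s(d.fst, d.snd)) = (v, i)} =
        Nat.card {w // G.Adj v w ∧ c s(v, w) = i} := by
      refine Nat.card_congr ⟨fun d => ⟨d.1.snd, ?_⟩, fun w => ⟨⟨(v, w.1), w.2.1⟩, ?_⟩, ?_, ?_⟩
      · obtain ⟨d, hd⟩ := d
        obtain ⟨h2, h3⟩ := Prod.mk.inj hd
        subst h2
        exact ⟨d.adj, h3⟩
      · exact Prod.ext rfl w.2.2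
      · rintro ⟨d, hd⟩
        obtain ⟨h2, h3⟩ := Prod.mk.inj hd
        subst h2
        rfl
      · rintro ⟨w, hw⟩
        rfl
    rw [h1]
    exact hE.2 i v
  obtain ⟨τ, hτ1, hτ2, hτ3⟩ := DEC_fib (fun d : G.Dart => (d.fst, c s(d.fst, d.snd))) hfib
  refine ⟨τ, ⟨hτ1, fun d => (Prod.mk.inj (hτ3 d)).1, hτ2⟩, ?_⟩
  have hcl : ∀ d d' : G.Dart, (d' = d.symm ∨ d' = τ d) → c s(d.fst, d.snd) = c s(d'.fst, d'.snd) := by
    rintro d d' (rfl | rfl)
    · exact congrArg c Sym2.eq_swap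
    · exact (Prod.mk.inj (hτ3 d)).2.symm
  unfold nci gav nav
  have hfin : Finite (Cir (fun d : G.Dart => d.symm) τ) := Quot.finite _
  let g : {x : Cir (fun d : G.Dart => d.symm) τ // ∀ d : G.Dart, False → cir (fun d : G.Dart => d.symm) τ d ≠ x} →
      Fin b := fun x => Quot.lift (fun d : G.Dart => c s(d.fst, d.snd)) hcl x.1
  have hg : Function.Surjective g := by
    intro i
    obtain ⟨u, w, h, hi⟩ := hE.1 i
    exact ⟨⟨cir _ _ ⟨(u, w), h⟩, fun _ h => h.elim⟩, hi⟩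
  have h5 := Nat.card_le_card_of_surjective g hg
  rwa [Nat.card_fin] at h5

end Pool.Agent.IH
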